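import Pool.Agent.helper12.TY.Spec
import Pool.Agent.helper30.DC.IRT

/-!
# Project ty (MP_baa4d7_al), row YTA: transport of `aB` along an isomorphism
-/

set_option autoImplicit false

namespace Pool.Agent.TY

open Pool.Agent.helper58.DC Pool.Agent.DI Pool.Agent.GR Pool.Agent.OB Pool.Agent.TZ

section

variable {H K : Type} [Group H] [Group K]

open Classical in
/-- the image of a chain -/
noncomputable def YTA_im (e : H ≃* K) (C : Finset (Subgroup H)) : Finset (Subgroup K) :=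
  C.image fun P => P.map e.toMonoidHom

theorem YTA_inj (e : H ≃* K) : Function.Injective (fun P : Subgroup H => P.map e.toMonoidHom) :=
  Subgroup.map_injective e.injective

theorem YTA_le (e : H ≃* K) (P Q : Subgroup H) :
    P.map e.toMonoidHom ≤ Q.map e.toMonoidHom ↔ P ≤ Q :=
  Subgroup.map_le_map_iff_of_injective e.injective

theorem YTA_mem (e : H ≃* K) (C : Finset (Subgroup H)) (P : Subgroup K) :
    P ∈ YTA_im e C ↔ ∃ Q ∈ C, Q.map e.toMonoidHom = P := by
  classical
  unfold YTA_im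
  exact Finset.mem_image

theorem YTA_memmap (e : H ≃* K) (C : Finset (Subgroup H)) (P : Subgroup H) :
    P.map e.toMonoidHom ∈ YTA_im e C ↔ P ∈ C := by
  rw [YTA_mem]
  constructor
  · rintro ⟨Q, hQ, h⟩
    rwa [← YTA_inj e h]
  · intro h
    exact ⟨P, h, rfl⟩

theorem YTA_card (e : H ≃* K) (C : Finset (Subgroup H)) : (YTA_im e C).card = C.card := by
  classical
  unfold YTA_im
  exact Finset.card_image_of_injective _ (YTA_inj e)

theorem YTA_norm (e : H ≃* K) (P : Subgroup H) :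
    Subgroup.normalizer ((P.map e.toMonoidHom : Subgroup K) : Set K) =
      (Subgroup.normalizer (P : Set H)).map e.toMonoidHom :=
  (Subgroup.map_equiv_normalizer_eq P e).symm

theorem YTA_memm (e : H ≃* K) (P : Subgroup H) (k : K) :
    k ∈ P.map e.toMonoidHom ↔ e.symm k ∈ P := by
  rw [Subgroup.mem_map]
  constructor
  · rintro ⟨x, hx, rfl⟩
    have : e.symm (e.toMonoidHom x) = x := e.symm_apply_apply x
    rwa [this]
  · intro h
    exact ⟨e.symm k, h, e.apply_symm_apply k⟩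

theorem YTA_nrm (e : H ≃* K) (C : Finset (Subgroup H)) :
    nrm (YTA_im e C) = (nrm C).map e.toMonoidHom := by
  ext g
  rw [YTA_memm]
  unfold nrm
  simp only [Subgroup.mem_iInf]
  constructor
  · intro h P hP
    have h1 := h _ ((YTA_memmap e C P).2 hP)
    rwa [YTA_norm, YTA_memm] at h1
  · intro h P hP
    rw [YTA_mem] at hP
    obtain ⟨Q, hQ, rfl⟩ := hP
    rw [YTA_norm, YTA_memm]
    exact h Q hQ

theorem YTA_back (e : H ≃* K) (P : Subgroup K) :
    (P.map e.symm.toMonoidHom).map e.toMonoidHom = P := by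
  ext k
  rw [YTA_memm, YTA_memm]
  have : e.symm.symm (e.symm k) = k := e.apply_symm_apply k
  rw [this]

theorem YTA_op (p : ℕ) (e : H ≃* K) (L P : Subgroup H) (h : IsOp p L P) :
    IsOp p (L.map e.toMonoidHom) (P.map e.toMonoidHom) := by
  obtain ⟨⟨h1, h2, h3⟩, h4⟩ := h
  refine ⟨⟨(YTA_le e _ _).2 h1, h2.map e.toMonoidHom, ?_⟩, ?_⟩
  · rw [YTA_norm, YTA_le]
    exact h3
  · rintro Q ⟨g1, g2, g3⟩
    have e1 := YTA_back e Q
    rw [← e1] at g1 g3 ⊢
    rw [YTA_le] at g1 ⊢
    refine h4 ⟨g1, g2.map e.symm.toMonoidHom, ?_⟩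
    rwa [YTA_norm, YTA_le] at g3

theorem YTA_rad (p : ℕ) (e : H ≃* K) (C : Finset (Subgroup H)) (h : IsRadical p C) :
    IsRadical p (YTA_im e C) := by
  classical
  refine ⟨?_, ?_, ?_⟩
  · intro P hP Q hQ hne
    rw [Finset.mem_coe, YTA_mem] at hP hQ
    obtain ⟨P', hP', rfl⟩ := hP
    obtain ⟨Q', hQ', rfl⟩ := hQ
    have hne' : P' ≠ Q' := fun h => hne (by rw [h])
    rcases h.chain hP' hQ' hne' with h | h
    · left
      exact (YTA_le e _ _).2 h
    · right
      exact (YTA_le e _ _).2 h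
  · intro P hP
    rw [YTA_mem] at hP
    obtain ⟨P', hP', rfl⟩ := hP
    exact (h.isPGroup P' hP').map e.toMonoidHom
  · obtain ⟨P₀, h0, h1, h2, h3⟩ := h.radical
    refine ⟨P₀.map e.toMonoidHom, (YTA_memmap e C P₀).2 h0, ?_, ?_, ?_⟩
    · intro P hP
      rw [YTA_mem] at hP
      obtain ⟨P', hP', rfl⟩ := hP
      exact (YTA_le e _ _).2 (h1 P' hP')
    · have := YTA_op p e _ _ h2
      rwa [Subgroup.map_top_of_surjective _ e.surjective] at this
    · intro P hP hne
      rw [YTA_mem] at hP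
      obtain ⟨P', hP', rfl⟩ := hP
      have hne' : P' ≠ P₀ := fun h => hne (by rw [h])
      have h4 := YTA_op p e _ _ (h3 P' hP' hne')
      rw [← YTA_nrm] at h4
      have h5 : YTA_im e (C.filter (· ≤ P')) =
          (YTA_im e C).filter (· ≤ P'.map e.toMonoidHom) := by
        ext Q
        rw [Finset.mem_filter, YTA_mem, YTA_mem]
        constructor
        · rintro ⟨R, hR, rfl⟩
          rw [Finset.mem_filter] at hR
          exact ⟨⟨R, hR.1, rfl⟩, (YTA_le e _ _).2 hR.2⟩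
        · rintro ⟨⟨R, hR, rfl⟩, h⟩
          exact ⟨R, Finset.mem_filter.2 ⟨hR, (YTA_le e _ _).1 h⟩, rfl⟩
      have h6 : nrm ((YTA_im e C).filter (· ≤ P'.map e.toMonoidHom)) =
          nrm (YTA_im e (C.filter (· ≤ P'))) := by rw [h5]
      have h7 : IsOp p (nrm ((YTA_im e C).filter (· ≤ P'.map e.toMonoidHom)))
          (P'.map e.toMonoidHom) := by
        rw [h6]
        exact h4
      exact h7

theorem YTA_symm (e : H ≃* K) (C : Finset (Subgroup H)) : YTA_im e.symm (YTA_im e C) = C := by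
  ext P
  rw [YTA_mem]
  constructor
  · rintro ⟨Q, hQ, rfl⟩
    rw [YTA_mem] at hQ
    obtain ⟨R, hR, rfl⟩ := hQ
    have := YTA_back e.symm R
    have h1 : (R.map e.toMonoidHom).map e.symm.toMonoidHom = R := this
    rwa [h1]
  · intro hP
    exact ⟨P.map e.toMonoidHom, (YTA_memmap e C P).2 hP, YTA_back e.symm P⟩

theorem YTA_omega (e : H ≃* K) (ψ : K → ℂ) (h : H) :
    omega (fun x => ψ (e x)) h = omega ψ (e h) := by
  unfold omega
  have h1 : (∑ᶠ x ∈ conjugatesOf h, ψ (e x)) = ∑ᶠ y ∈ conjugatesOf (e h), ψ y := by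
    refine finsum_mem_eq_of_bijOn e ⟨?_, e.injective.injOn, ?_⟩ fun x _ => rfl
    · intro x hx
      exact (e.toMonoidHom).map_isConj hx
    · intro y hy
      refine ⟨e.symm y, ?_, e.apply_symm_apply y⟩
      have h2 : IsConj (e.symm (e h)) (e.symm y) := (e.symm.toMonoidHom).map_isConj hy
      rw [e.symm_apply_apply] at h2
      exact h2
  rw [h1]
  show _ / ψ (e 1) = _
  rw [map_one]

theorem YTA_ind (e : H ≃* K) (M : Ideal (integralClosure ℤ ℂ)) (ψ b : K → ℂ) :
    Induces M (fun x => ψ (e x)) (fun x => b (e x)) ↔ Induces M ψ b := by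
  constructor
  · intro h k
    obtain ⟨a, ha, h1⟩ := h (e.symm k)
    rw [YTA_omega, YTA_omega, e.apply_symm_apply] at h1
    exact ⟨a, ha, h1⟩
  · intro h x
    obtain ⟨a, ha, h1⟩ := h (e x)
    refine ⟨a, ha, ?_⟩
    rw [YTA_omega, YTA_omega]
    exact h1

theorem YTA_irr (e : H ≃* K) (N : Subgroup H) (ψ : K → ℂ) :
    (fun x => ψ (e x)) ∈ IrrOn N ↔ ψ ∈ IrrOn (N.map e.toMonoidHom) := by
  have s : N ≃* (N.map e.toMonoidHom : Subgroup K) := e.subgroupMap N
  have hs : ∃ s : N ≃* (N.map e.toMonoidHom : Subgroup K), ∀ x : N, ((s x : (N.map e.toMonoidHom : Subgroup K)) : K) = e x :=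
    ⟨e.subgroupMap N, fun x => rfl⟩
  clear s
  obtain ⟨s, hs⟩ := hs
  have hs' : ∀ y : (N.map e.toMonoidHom : Subgroup K), e ((s.symm y : N) : H) = (y : K) := by
    intro y
    rw [← hs, s.apply_symm_apply]
  constructor
  · rintro ⟨h1, h2⟩
    refine ⟨?_, ?_⟩
    · intro k hk
      rw [YTA_memm] at hk
      have h3 := h1 _ hk
      simpa using h3
    · have h3 := Pool.Agent.helper30.DC.IRT _ _ s.symm _ h2
      have h4 : (fun h : (N.map e.toMonoidHom : Subgroup K) => (fun h : N => (fun x => ψ (e x)) (h : H)) (s.symm h)) =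
          fun h : (N.map e.toMonoidHom : Subgroup K) => ψ (h : K) := by
        funext y
        show ψ (e ((s.symm y : N) : H)) = ψ (y : K)
        rw [hs']
      rw [h4] at h3
      exact h3
  · rintro ⟨h1, h2⟩
    refine ⟨?_, ?_⟩
    · intro x hx
      refine h1 _ ?_
      rw [YTA_memm, e.symm_apply_apply]
      exact hx
    · have h3 := Pool.Agent.helper30.DC.IRT _ _ s _ h2
      have h4 : (fun h : N => (fun h : (N.map e.toMonoidHom : Subgroup K) => ψ (h : K)) (s h)) =
          fun h : N => (fun x => ψ (e x)) (h : H) := by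
        funext y
        show ψ ((s y : (N.map e.toMonoidHom : Subgroup K)) : K) = ψ (e (y : H))
        rw [hs]
      rw [h4] at h3
      exact h3

/-- the summand -/
noncomputable def YTA_F (M : Ideal (integralClosure ℤ ℂ)) (b : K → ℂ) (C : Finset (Subgroup K)) : ℤ :=
  (-1) ^ (C.card - 1) * (Nat.card {ψ : K → ℂ // ψ ∈ IrrOn (nrm C) ∧ Induces M ψ b} : ℤ)

/-- composition with `e` -/
def YTA_eq (e : H ≃* K) : (H → ℂ) ≃ (K → ℂ) where
  toFun φ := fun k => φ (e.symm k)
  invFun ψ := fun h => ψ (e h)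
  left_inv φ := by
    funext h
    show φ (e.symm (e h)) = φ h
    rw [e.symm_apply_apply]
  right_inv ψ := by
    funext k
    show ψ (e (e.symm k)) = ψ k
    rw [e.apply_symm_apply]

theorem YTA_tr (e : H ≃* K) (M : Ideal (integralClosure ℤ ℂ)) (b : K → ℂ) (C : Finset (Subgroup H)) :
    YTA_F M (fun x => b (e x)) C = YTA_F M b (YTA_im e C) := by
  unfold YTA_F
  rw [YTA_card]
  congr 2
  refine Nat.card_congr (Equiv.subtypeEquiv (YTA_eq e) fun φ => ?_)
  have h1 : φ = fun x => (YTA_eq e φ) (e x) := by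
    funext x
    show φ x = φ (e.symm (e x))
    rw [e.symm_apply_apply]
  rw [YTA_nrm, ← YTA_irr e (nrm C) (YTA_eq e φ), ← YTA_ind e M (YTA_eq e φ) b, ← h1]

theorem YTA_conj (M : Ideal (integralClosure ℤ ℂ)) (b : K → ℂ) (g : K) (C : Finset (Subgroup K)) :
    YTA_F M b (chainMap (MulAut.conj g) C) = YTA_F M b C := by
  have h1 := YTA_tr (MulAut.conj g : K ≃* K) M b C
  have h2 : ∀ h : K, omega (fun x => b ((MulAut.conj g : K ≃* K) x)) h = omega b h := by
    intro h
    rw [YTA_omega]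
    have h3 : conjugatesOf ((MulAut.conj g : K ≃* K) h) = conjugatesOf h := by
      rw [← isConj_iff_conjugatesOf_eq]
      refine IsConj.symm ?_
      rw [isConj_iff]
      exact ⟨g, rfl⟩
    unfold omega
    rw [h3]
  have h4 : YTA_F M (fun x => b ((MulAut.conj g : K ≃* K) x)) C = YTA_F M b C := by
    unfold YTA_F
    congr 2
    refine Nat.card_congr (Equiv.subtypeEquiv (Equiv.refl _) fun φ => ?_)
    show φ ∈ IrrOn (nrm C) ∧ Induces M φ _ ↔ φ ∈ IrrOn (nrm C) ∧ Induces M φ b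
    refine and_congr_right fun _ => ?_
    unfold Induces
    simp only [h2]
  rw [← h4, h1]
  rfl

theorem YTA_comm (e : H ≃* K) (g : H) (C : Finset (Subgroup H)) :
    chainMap (MulAut.conj (e g)) (YTA_im e C) = YTA_im e (chainMap (MulAut.conj g) C) := by
  show YTA_im (MulAut.conj (e g) : K ≃* K) (YTA_im e C) = YTA_im e (YTA_im (MulAut.conj g : H ≃* H) C)
  have h1 : ∀ P : Subgroup H, (P.map e.toMonoidHom).map (MulAut.conj (e g) : K ≃* K).toMonoidHom =
      (P.map (MulAut.conj g : H ≃* H).toMonoidHom).map e.toMonoidHom := by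
    intro P
    rw [Subgroup.map_map, Subgroup.map_map]
    congr 1
    ext x
    show e g * e x * (e g)⁻¹ = e (g * x * g⁻¹)
    rw [map_mul, map_mul, map_inv]
  ext P
  rw [YTA_mem, YTA_mem]
  constructor
  · rintro ⟨Q, hQ, rfl⟩
    rw [YTA_mem] at hQ
    obtain ⟨R, hR, rfl⟩ := hQ
    exact ⟨_, (YTA_memmap _ C R).2 hR, (h1 R).symm⟩
  · rintro ⟨Q, hQ, rfl⟩
    rw [YTA_mem] at hQ
    obtain ⟨R, hR, rfl⟩ := hQ
    exact ⟨_, (YTA_memmap _ C R).2 hR, h1 R⟩

/-- the radical chains -/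
noncomputable def YTA_ch (p : ℕ) (e : H ≃* K) :
    {C : Finset (Subgroup H) // IsRadical p C} ≃ {C : Finset (Subgroup K) // IsRadical p C} where
  toFun C := ⟨YTA_im e C.1, YTA_rad p e C.1 C.2⟩
  invFun C := ⟨YTA_im e.symm C.1, YTA_rad p e.symm C.1 C.2⟩
  left_inv C := Subtype.ext (YTA_symm e C.1)
  right_inv C := Subtype.ext (YTA_symm e.symm C.1)

theorem YTA_rel (p : ℕ) (e : H ≃* K) (C D : {C : Finset (Subgroup H) // IsRadical p C}) :
    chainRel p C D ↔ chainRel p (YTA_ch p e C) (YTA_ch p e D) := by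
  constructor
  · rintro ⟨g, hg⟩
    refine ⟨e g, ?_⟩
    show chainMap (MulAut.conj (e g)) (YTA_im e C.1) = YTA_im e D.1
    rw [YTA_comm, hg]
  · rintro ⟨k, hk⟩
    refine ⟨e.symm k, ?_⟩
    have h1 : chainMap (MulAut.conj k) (YTA_im e C.1) = YTA_im e D.1 := hk
    have h2 := YTA_comm e (e.symm k) C.1
    rw [e.apply_symm_apply, h1] at h2
    have h3 := congrArg (YTA_im e.symm) h2
    rw [YTA_symm, YTA_symm] at h3
    exact h3.symm

theorem YTA_out (p : ℕ) (M : Ideal (integralClosure ℤ ℂ)) (b : K → ℂ)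
    (C : {C : Finset (Subgroup K) // IsRadical p C}) :
    YTA_F M b (Quot.mk (chainRel p) C).out.1 = YTA_F M b C.1 := by
  have h1 : ∀ C D : {C : Finset (Subgroup K) // IsRadical p C}, chainRel p C D →
      YTA_F M b C.1 = YTA_F M b D.1 := by
    rintro C D ⟨g, hg⟩
    rw [← hg, YTA_conj]
  have h2 : ∀ c : Quot (chainRel (G := K) p), YTA_F M b c.out.1 =
      Quot.lift (fun C : {C : Finset (Subgroup K) // IsRadical p C} => YTA_F M b C.1) h1 c := by
    intro c
    conv_rhs => rw [← c.out_eq]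
  rw [h2]

end

theorem YTA : YTA_stmt := by
  intro H K _ _ _ _ e p _ M b
  show (∑ᶠ c : Quot (chainRel (G := H) p), YTA_F M (fun x => b (e x)) c.out.1) =
    ∑ᶠ c : Quot (chainRel (G := K) p), YTA_F M b c.out.1
  rw [← finsum_comp_equiv (Quot.congr (YTA_ch p e) (YTA_rel p e))]
  refine finsum_congr fun c => ?_
  rw [YTA_tr]
  have h1 : Quot.congr (YTA_ch p e) (YTA_rel p e) c =
      Quot.mk (chainRel (G := K) p) (YTA_ch p e c.out) := by
    conv_lhs => rw [← c.out_eq]
    rfl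
  rw [h1, YTA_out]
  rfl

end Pool.Agent.TY
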